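import Mathlib

set_option autoImplicit false

namespace Pool.Agent.Helper232.VN

universe u

/-- two-sided ideals, as sets -/
structure Two {R : Type u} [Ring R] (I : Set R) : Prop where
  zero : (0 : R) ∈ I
  add : ∀ a ∈ I, ∀ b ∈ I, a + b ∈ I
  left : ∀ r : R, ∀ a ∈ I, r * a ∈ I
  right : ∀ r : R, ∀ a ∈ I, a * r ∈ I

variable {R : Type u} [Ring R]

theorem Two.neg {I : Set R} (h : Two I) {a : R} (ha : a ∈ I) : -a ∈ I := by
  have := h.left (-1) a ha
  rwa [neg_one_mul] at this

theorem Two.sub {I : Set R} (h : Two I) {a b : R} (ha : a ∈ I) (hb : b ∈ I) : a - b ∈ I := by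
  rw [sub_eq_add_neg]; exact h.add _ ha _ (h.neg hb)

theorem Two.of_sub {I : Set R} (h : Two I) {a b : R} (hab : a - b ∈ I) (ha : a ∈ I) : b ∈ I := by
  have := h.sub ha hab
  rwa [sub_sub_cancel] at this

theorem Two.of_sub' {I : Set R} (h : Two I) {a b : R} (hab : a - b ∈ I) (hb : b ∈ I) : a ∈ I := by
  have := h.add _ hab _ hb
  rwa [sub_add_cancel] at this

/-- `R g` is minimal modulo `I` -/
def LMin (I : Set R) (g : R) : Prop := g ∉ I ∧ ∀ s, s * g ∉ I → ∃ t, t * (s * g) - g ∈ I

/-- `g R` is minimal modulo `I` -/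
def RMin (I : Set R) (g : R) : Prop := g ∉ I ∧ ∀ s, g * s ∉ I → ∃ t, g * s * t - g ∈ I

theorem rmin_to (hreg : ∀ a : R, ∃ x, a * x * a = a) {I : Set R} (hI : Two I) {g : R}
    (hg : RMin I g) : ∃ e x : R, e * e = e ∧ e = g * x ∧ e * g = g ∧ LMin I e ∧ RMin I e := by
  obtain ⟨x, hx⟩ := hreg g
  have he : g * x * (g * x) = g * x := by rw [← mul_assoc, hx]
  have heI : g * x ∉ I := fun h => hg.1 (by rw [← hx]; exact hI.right g _ h)
  have hR : RMin I (g * x) := by
    refine ⟨heI, fun s hs => ?_⟩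
    obtain ⟨t, ht⟩ := hg.2 (x * s) (by rw [← mul_assoc]; exact hs)
    refine ⟨t * x, ?_⟩
    have := hI.right x _ ht
    rw [sub_mul] at this
    convert this using 2
    noncomm_ring
  refine ⟨g * x, x, he, rfl, hx, ⟨heI, fun s hs => ?_⟩, hR⟩
  generalize g * x = e at he heI hR hs
  obtain ⟨y, hy⟩ := hreg (s * e)
  obtain ⟨p, hp⟩ : ∃ p, p = e * y * (s * e) := ⟨_, rfl⟩
  have hsp : s * p = s * e := by
    rw [hp]
    calc s * (e * y * (s * e)) = s * e * y * (s * e) := by noncomm_ring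
      _ = s * e := hy
  have hpI : p ∉ I := fun h => hs (by rw [← hsp]; exact hI.left s _ h)
  have hep : e * p = p := by
    rw [hp]
    calc e * (e * y * (s * e)) = (e * e) * y * (s * e) := by noncomm_ring
      _ = _ := by rw [he]
  have hpe : p * e = p := by
    rw [hp]
    calc e * y * (s * e) * e = e * y * (s * (e * e)) := by noncomm_ring
      _ = _ := by rw [he]
  have hpp : p * p = p := by
    calc p * p = e * y * (s * e) * p := by rw [← hp]
      _ = e * y * (s * (e * p)) := by noncomm_ring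
      _ = e * y * (s * e) := by rw [hep, hsp]
      _ = p := hp.symm
  obtain ⟨t, ht⟩ := hR.2 p (by rw [hep]; exact hpI)
  rw [hep] at ht
  -- p t - e ∈ I, so p t - p ∈ I
  have h1 : p * t - p ∈ I := by
    have := hI.left p _ ht
    rwa [mul_sub, ← mul_assoc, hpp, hpe] at this
  refine ⟨e * y, ?_⟩
  rw [← hp]
  have := hI.sub ht h1
  have h2 : p - e = p * t - e - (p * t - p) := by noncomm_ring
  rw [h2]
  exact this

theorem lmin_to (hreg : ∀ a : R, ∃ x, a * x * a = a) {I : Set R} (hI : Two I) {g : R}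
    (hg : LMin I g) : ∃ e x : R, e * e = e ∧ e = x * g ∧ g * e = g ∧ LMin I e ∧ RMin I e := by
  obtain ⟨x, hx⟩ := hreg g
  have he : x * g * (x * g) = x * g := by rw [mul_assoc, ← mul_assoc g x g, hx]
  have hge : g * (x * g) = g := by rw [← mul_assoc, hx]
  have heI : x * g ∉ I := fun h => hg.1 (by rw [← hge]; exact hI.left g _ h)
  have hL : LMin I (x * g) := by
    refine ⟨heI, fun s hs => ?_⟩
    obtain ⟨t, ht⟩ := hg.2 (s * x) (by rw [mul_assoc]; exact hs)
    refine ⟨x * t, ?_⟩
    have := hI.left x _ ht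
    rw [mul_sub] at this
    convert this using 2
    noncomm_ring
  refine ⟨x * g, x, he, rfl, hge, hL, ⟨heI, fun s hs => ?_⟩⟩
  generalize x * g = e at he heI hL hs
  obtain ⟨y, hy⟩ := hreg (e * s)
  obtain ⟨p, hp⟩ : ∃ p, p = e * s * (y * e) := ⟨_, rfl⟩
  have hsp : p * s = e * s := by
    rw [hp]
    calc e * s * (y * e) * s = e * s * y * (e * s) := by noncomm_ring
      _ = e * s := hy
  have hpI : p ∉ I := fun h => hs (by rw [← hsp]; exact hI.right s _ h)
  have hpe : p * e = p := by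
    rw [hp]
    calc e * s * (y * e) * e = e * s * (y * (e * e)) := by noncomm_ring
      _ = _ := by rw [he]
  have hep : e * p = p := by
    rw [hp]
    calc e * (e * s * (y * e)) = (e * e) * s * (y * e) := by noncomm_ring
      _ = _ := by rw [he]
  have hpp : p * p = p := by
    calc p * p = p * (e * s * (y * e)) := by rw [← hp]
      _ = (p * e) * s * (y * e) := by noncomm_ring
      _ = e * s * (y * e) := by rw [hpe, hsp]
      _ = p := hp.symm
  obtain ⟨t, ht⟩ := hL.2 p (by rw [hpe]; exact hpI)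
  rw [hpe] at ht
  have h1 : t * p - p ∈ I := by
    have := hI.right p _ ht
    rwa [sub_mul, mul_assoc, hpp, hep] at this
  refine ⟨y * e, ?_⟩
  rw [← hp]
  have := hI.sub ht h1
  have h2 : p - e = t * p - e - (t * p - p) := by noncomm_ring
  rw [h2]
  exact this

/-- the two-sided ideal generated by `I` and the elements minimal modulo `I` -/
def Dv (I : Set R) : Set R := {a | ∀ J : Set R, Two J → I ⊆ J → (∀ g, LMin I g → g ∈ J) → a ∈ J}

theorem Dv_two (I : Set R) : Two (Dv I) where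
  zero := fun J hJ _ _ => hJ.zero
  add := fun a ha b hb J hJ h1 h2 => hJ.add _ (ha J hJ h1 h2) _ (hb J hJ h1 h2)
  left := fun r a ha J hJ h1 h2 => hJ.left r _ (ha J hJ h1 h2)
  right := fun r a ha J hJ h1 h2 => hJ.right r _ (ha J hJ h1 h2)

theorem Dv_le (I : Set R) : I ⊆ Dv I := fun _ ha _ _ h1 _ => h1 ha

theorem Dv_min (I : Set R) {g : R} (hg : LMin I g) : g ∈ Dv I := fun _ _ _ h2 => h2 g hg

theorem Dv_symm (hreg : ∀ a : R, ∃ x, a * x * a = a) {I : Set R} (hI : Two I) :
    Dv I = {a | ∀ J : Set R, Two J → I ⊆ J → (∀ g, RMin I g → g ∈ J) → a ∈ J} := by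
  have key : ∀ J : Set R, Two J → ((∀ g, LMin I g → g ∈ J) ↔ (∀ g, RMin I g → g ∈ J)) := by
    intro J hJ
    constructor
    · intro h g hg
      obtain ⟨e, x, -, -, h1, h2, -⟩ := rmin_to hreg hI hg
      rw [← h1]
      exact hJ.right g _ (h e h2)
    · intro h g hg
      obtain ⟨e, x, -, -, h1, -, h2⟩ := lmin_to hreg hI hg
      rw [← h1]
      exact hJ.left g _ (h e h2)
  refine Set.ext fun a => forall_congr' fun J => forall_congr' fun hJ => forall_congr' fun _ => ?_
  rw [key J hJ]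

end Pool.Agent.Helper232.VN
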