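import Mathlib
import Pool.Agent.Helper462.Vnr.Main
import Pool.Agent.Helper232.VN.L1

set_option autoImplicit false

namespace Pool.Agent.Helper232.VN

universe u

theorem iso_of_alive {A : Type u} [Ring A] (I : Set A) (g : A) (hg : LMin I g)
    (N N' : Type u) [AddCommGroup N] [Module A N] [AddCommGroup N'] [Module A N']
    (hN : Module.Injective A N) (hNi : VNR.IsIndec A N)
    (hN' : Module.Injective A N') (hNi' : VNR.IsIndec A N')
    (hI : ∀ a ∈ I, ∀ v : N, a • v = 0) (hI' : ∀ a ∈ I, ∀ v : N', a • v = 0)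
    (v : N) (hv : g • v ≠ 0) (v' : N') (hv' : g • v' ≠ 0) : Nonempty (N ≃ₗ[A] N') := by
  have key : ∀ (P : Type u) [AddCommGroup P] [Module A P] (w : P), g • w ≠ 0 →
      (∀ a ∈ I, ∀ v : P, a • v = 0) → ∀ a : A, a • (g • w) = 0 ↔ a * g ∈ I := by
    intro P _ _ w hw hP a
    constructor
    · intro h
      by_contra hcon
      obtain ⟨t, ht⟩ := hg.2 a hcon
      have h1 := hP _ ht w
      rw [sub_smul, mul_smul, mul_smul, h, smul_zero, zero_sub, neg_eq_zero] at h1
      exact hw h1
    · intro h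
      rw [← mul_smul]
      exact hP _ h w
  let φ : A →ₗ[A] N := LinearMap.toSpanSingleton A N (g • v)
  let φ' : A →ₗ[A] N' := LinearMap.toSpanSingleton A N' (g • v')
  have hker : LinearMap.ker φ = LinearMap.ker φ' := by
    ext a
    rw [LinearMap.mem_ker, LinearMap.mem_ker, LinearMap.toSpanSingleton_apply,
      LinearMap.toSpanSingleton_apply, key N v hv hI, key N' v' hv' hI']
  let ι : (A ⧸ LinearMap.ker φ) →ₗ[A] N := (LinearMap.ker φ).liftQ φ le_rfl
  let ι' : (A ⧸ LinearMap.ker φ) →ₗ[A] N' := (LinearMap.ker φ).liftQ φ' hker.le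
  have hι : Function.Injective ι := by
    rw [← LinearMap.ker_eq_bot]
    exact Submodule.ker_liftQ_eq_bot _ _ _ le_rfl
  have hι' : Function.Injective ι' := by
    rw [← LinearMap.ker_eq_bot]
    exact Submodule.ker_liftQ_eq_bot _ _ _ hker.ge
  obtain ⟨f, hf⟩ := hN'.out ι hι ι'
  have hfinj : Function.Injective f := by
    rw [← LinearMap.ker_eq_bot]
    by_contra hne
    have hr : LinearMap.range ι ≠ ⊥ := by
      intro h
      apply hv
      have h1 : ι (Submodule.Quotient.mk 1) ∈ LinearMap.range ι := ⟨_, rfl⟩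
      rw [h, Submodule.mem_bot] at h1
      change (LinearMap.ker φ).liftQ φ _ (Submodule.Quotient.mk 1) = 0 at h1
      rw [Submodule.liftQ_apply, LinearMap.toSpanSingleton_apply, one_smul] at h1
      exact h1
    obtain ⟨x, hx, hx0⟩ := Submodule.exists_mem_ne_zero_of_ne_bot
      (VNR.uniform_of_indec_injective A N hN hNi _ _ hne hr)
    obtain ⟨h1, z, rfl⟩ := hx
    have h2 : f (ι z) = 0 := h1
    rw [hf] at h2
    apply hx0
    rw [hι' (h2.trans (map_zero ι').symm), map_zero]
  obtain ⟨r, hr⟩ := hN.out f hfinj LinearMap.id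
  have hcompl : IsCompl (LinearMap.range f) (LinearMap.ker r) := by
    constructor
    · rw [Submodule.disjoint_def]
      rintro _ ⟨n, rfl⟩ h
      have h1 : r (f n) = 0 := h
      rw [hr] at h1
      have h2 : n = 0 := h1
      rw [h2, map_zero]
    · rw [codisjoint_iff, eq_top_iff]
      rintro y -
      rw [Submodule.mem_sup]
      refine ⟨f (r y), ⟨_, rfl⟩, y - f (r y), ?_, by abel⟩
      rw [LinearMap.mem_ker, map_sub, hr]
      exact sub_self _
  have hsurj : Function.Surjective f := by
    rcases hNi'.2 _ _ hcompl with h | h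
    · exfalso
      obtain ⟨n, hn⟩ := @exists_ne N hNi.1 0
      apply hn
      apply hfinj
      have h1 : f n ∈ LinearMap.range f := ⟨n, rfl⟩
      rw [h, Submodule.mem_bot] at h1
      rw [h1, map_zero]
    · intro y
      refine ⟨r y, ?_⟩
      have h1 : f (r y) - y ∈ LinearMap.ker r := by
        rw [LinearMap.mem_ker, map_sub, hr]
        exact sub_self _
      rw [h, Submodule.mem_bot] at h1
      exact sub_eq_zero.1 h1
  exact ⟨LinearEquiv.ofBijective f ⟨hfinj, hsurj⟩⟩

end Pool.Agent.Helper232.VN
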