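import Mathlib

set_option autoImplicit false

/-! Quantifier elimination over von Neumann regular rings. -/

namespace Pool.Agent.Helper232.VN

universe u

variable {S : Type u} [Ring S]

/-- action of a matrix on a vector with entries in a module -/
def act {l m : ℕ} (A : Fin l → Fin m → S) {Q : Type u} [AddCommGroup Q] [Module S Q]
    (x : Fin m → Q) : Fin l → Q := fun j => ∑ i, A j i • x i

def mm {l m n : ℕ} (A : Fin l → Fin m → S) (B : Fin m → Fin n → S) : Fin l → Fin n → S :=
  fun j i => ∑ t, A j t * B t i

theorem act_mm {l m n : ℕ} (A : Fin l → Fin m → S) (B : Fin m → Fin n → S) {Q : Type u}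
    [AddCommGroup Q] [Module S Q] (x : Fin n → Q) : act (mm A B) x = act A (act B x) := by
  funext j
  simp only [act, mm, Finset.sum_smul, Finset.smul_sum, mul_smul]
  exact Finset.sum_comm

/-- finitely generated left ideals are generated by idempotents -/
theorem fg_idem (hreg : ∀ a : S, ∃ x : S, a * x * a = a) {m : ℕ} (C : Fin m → S) :
    ∃ (e : S) (u : Fin m → S), e * e = e ∧ e = ∑ i, u i * C i ∧ ∀ i, C i * e = C i := by
  induction m with
  | zero => exact ⟨0, fun _ => 0, by simp, by simp, fun i => i.elim0⟩
  | succ m ih =>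
    obtain ⟨e, u, he, hu, hC⟩ := ih (fun i => C i.castSucc)
    set c := C (Fin.last m) with hc
    obtain ⟨x, hx⟩ := hreg (c * (1 - e))
    have hee : (1 - e) * e = 0 := by rw [sub_mul, one_mul, he, sub_self]
    have hee2 : e * (1 - e) = 0 := by rw [mul_sub, mul_one, he, sub_self]
    set b := c * (1 - e) with hb
    have hbe : b * e = 0 := by rw [hb, mul_assoc, hee, mul_zero]
    set q := (1 - e) * (x * b) with hq
    have hqe : q * e = 0 := by rw [hq, mul_assoc, mul_assoc, hbe, mul_zero, mul_zero]
    have heq : e * q = 0 := by rw [hq, ← mul_assoc, hee2, zero_mul]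
    have hbq : b * q = b := by
      have : b * q = b * x * b - b * e * (x * b) := by rw [hq]; noncomm_ring
      rw [this, hbe, zero_mul, sub_zero, hx]
    have hqq : q * q = q := by
      have h1 : q * q = (1 - e) * (x * (b * q)) := by rw [hq]; noncomm_ring
      rw [h1, hbq]
    refine ⟨e + q, Fin.snoc (fun i => u i - (1 - e) * x * c * u i) ((1 - e) * x), ?_, ?_, ?_⟩
    · rw [add_mul, mul_add, mul_add, he, heq, hqe, hqq]; simp
    · rw [Fin.sum_univ_castSucc]
      simp only [Fin.snoc_castSucc, Fin.snoc_last]
      have h1 : ∀ w : S, ∑ i : Fin m, (u i - w * u i) * C i.castSucc = e - w * e := by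
        intro w
        have h2 : ∑ i : Fin m, (u i - w * u i) * C i.castSucc =
            (∑ i, u i * C i.castSucc) - w * ∑ i, u i * C i.castSucc := by
          rw [Finset.mul_sum, ← Finset.sum_sub_distrib]
          refine Finset.sum_congr rfl fun i _ => ?_
          rw [sub_mul, mul_assoc]
        rw [h2, ← hu]
      rw [h1, hq, hb, ← hc]
      noncomm_ring
    · intro i
      refine Fin.lastCases ?_ (fun i => ?_) i
      · rw [← hc, mul_add]
        have h1 : c * q = b * (x * b) := by rw [hq, hb]; noncomm_ring
        rw [h1, ← mul_assoc, hx, hb]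
        noncomm_ring
      · have h1 : C i.castSucc * q = C i.castSucc * e * q := by rw [hC i]
        rw [mul_add, hC i, h1, mul_assoc, heq, mul_zero, add_zero]

theorem elim (hreg : ∀ a : S, ∃ x : S, a * x * a = a) {m l : ℕ} (B : Fin l → Fin m → S) :
    ∃ T : Fin l → Fin l → S, ∀ (Q : Type u) [AddCommGroup Q] [Module S Q] (c : Fin l → Q),
      (∃ z : Fin m → Q, ∀ j, ∑ i, B j i • z i = c j) ↔ ∀ j, ∑ i, T j i • c i = 0 := by
  classical
  induction m with
  | zero =>
    refine ⟨fun j i => if i = j then 1 else 0, fun Q _ _ c => ?_⟩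
    constructor
    · rintro ⟨z, hz⟩ j
      have h1 : c j = 0 := by rw [← hz j]; simp
      simp [ite_smul, h1]
    · intro h
      refine ⟨fun i => i.elim0, fun j => ?_⟩
      have h1 := h j
      simp [ite_smul] at h1
      simp [h1]
  | succ m ih =>
    obtain ⟨e, u, he, hu, hC⟩ := fg_idem hreg (fun j => B j 0)
    let P : Fin l → Fin l → S := fun j i => (if i = j then 1 else 0) - B j 0 * u i
    have hP : ∀ (Q : Type u) [AddCommGroup Q] [Module S Q] (x : Fin l → Q) (j : Fin l),
        act P x j = x j - B j 0 • ∑ i, u i • x i := by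
      intro Q _ _ x j
      simp only [act, P, sub_smul, Finset.sum_sub_distrib, ite_smul, one_smul, zero_smul,
        Finset.sum_ite_eq', Finset.mem_univ, if_true, Finset.smul_sum, mul_smul]
    obtain ⟨T, hT⟩ := ih (mm P (fun j i => B j i.succ))
    refine ⟨mm T P, fun Q _ _ c => ?_⟩
    have h1 := hT Q (act P c)
    have h2 : (∀ j, ∑ i, (mm T P) j i • c i = 0) ↔ ∀ j, ∑ i, T j i • act P c i = 0 := by
      have h3 : ∀ j, ∑ i, (mm T P) j i • c i = ∑ i, T j i • act P c i := fun j =>
        congrFun (act_mm T P c) j
      simp only [h3]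
    rw [h2, ← h1]
    have h4 : ∀ z : Fin m → Q, (∀ j, ∑ i, (mm P (fun j i => B j i.succ)) j i • z i = act P c j) ↔
        act P (act (fun j i => B j i.succ) z) = act P c := by
      intro z
      rw [funext_iff]
      have h5 : ∀ j, ∑ i, (mm P (fun j i => B j i.succ)) j i • z i =
          act P (act (fun j i => B j i.succ) z) j := fun j => congrFun (act_mm P _ z) j
      simp only [h5]
    constructor
    · rintro ⟨z, hz⟩
      refine ⟨fun i => z i.succ, (h4 _).2 ?_⟩
      funext j
      rw [hP, hP]
      have h6 : ∀ j, act (fun j i => B j i.succ) (fun i => z i.succ) j = c j - B j 0 • z 0 := by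
        intro j
        rw [← hz j, Fin.sum_univ_succ]
        simp [act]
      simp only [h6]
      have h7 : ∑ i, u i • (c i - B i 0 • z 0) = (∑ i, u i • c i) - e • z 0 := by
        rw [hu]
        simp only [smul_sub, Finset.sum_sub_distrib, Finset.sum_smul, mul_smul]
      rw [h7, smul_sub, ← mul_smul, hC j]
      abel
    · rintro ⟨z, hz⟩
      have h5 := (h4 z).1 hz
      set r := act (fun j i => B j i.succ) z with hr
      refine ⟨Fin.cons (∑ i, u i • (c i - r i)) z, fun j => ?_⟩
      rw [Fin.sum_univ_succ]
      simp only [Fin.cons_zero, Fin.cons_succ]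
      have h6 := congrFun h5 j
      rw [hP, hP] at h6
      have h7 : ∑ i : Fin m, B j i.succ • z i = r j := rfl
      rw [h7]
      simp only [smul_sub, Finset.sum_sub_distrib] at h6 ⊢
      have h8 : r j - B j 0 • ∑ i, u i • r i = c j - B j 0 • ∑ i, u i • c i := h6
      rw [sub_eq_sub_iff_add_eq_add] at h8
      rw [sub_add_eq_add_sub, sub_eq_iff_eq_add, add_comm (B j 0 • _) (r j), h8]

end Pool.Agent.Helper232.VN
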