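import Mathlib
import Pool.Agent.Helper462.Iso.Supp
import Pool.Agent.Helper232.VN.QE

set_option autoImplicit false

/-! Minimal pairs over von Neumann regular rings; purity. -/

namespace Pool.Agent.Helper232.VN

universe u

open Zg ZIso

variable {S : Type u} [Ring S]

theorem pp_idem (hreg : ∀ a : S, ∃ x : S, a * x * a = a) (φ : PPFormula S) :
    ∃ e : S, e * e = e ∧ ∀ (Q : Type u) [AddCommGroup Q] [Module S Q] (v : Q),
      v ∈ φ.sol Q ↔ e • v = v := by
  obtain ⟨T, hT⟩ := elim hreg φ.B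
  obtain ⟨q, u, hq, hu, hC⟩ := fg_idem hreg (fun j => ∑ i, T j i * φ.a i)
  refine ⟨1 - q, by rw [mul_sub, mul_one, sub_mul, one_mul, hq, sub_self, sub_zero], ?_⟩
  intro Q _ _ v
  have h1 : v ∈ φ.sol Q ↔ ∀ j, (∑ i, T j i * φ.a i) • v = 0 := by
    have h2 : v ∈ φ.sol Q ↔ ∀ j, ∑ i, T j i • (φ.a i • v) = 0 := hT Q (fun j => φ.a j • v)
    rw [h2]
    simp only [Finset.sum_smul, mul_smul]
  rw [h1, sub_smul, one_smul, sub_eq_self]
  constructor
  · intro h
    rw [hu, Finset.sum_smul]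
    refine Finset.sum_eq_zero fun i _ => ?_
    rw [mul_smul, h i, smul_zero]
  · intro h j
    rw [← hC j, mul_smul, h, smul_zero]

theorem pure_of_injective (hreg : ∀ a : S, ∃ x : S, a * x * a = a) {A B : Type u} [AddCommGroup A]
    [Module S A] [AddCommGroup B] [Module S B] (f : A →ₗ[S] B) (hf : Function.Injective f) :
    IsPureEmbedding f := by
  refine ⟨hf, ?_⟩
  intro m l r c h
  obtain ⟨T, hT⟩ := elim hreg r
  have h1 := (hT B (fun j => f (c j))).1 h
  refine (hT A c).2 fun j => hf ?_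
  rw [map_sum, map_zero, ← h1 j]
  exact Finset.sum_congr rfl fun i _ => map_smul _ _ _

theorem pureInjective_of_injective (Q : Type u) [AddCommGroup Q] [Module S Q]
    (h : Module.Injective S Q) : IsPureInjective S Q := by
  intro A B _ _ _ _ i hi g
  obtain ⟨h', hh'⟩ := h.out i hi.1 g
  exact ⟨h', LinearMap.ext hh'⟩

theorem injective_of_pureInjective (hreg : ∀ a : S, ∃ x : S, a * x * a = a) (Q : Type u)
    [AddCommGroup Q] [Module S Q] (h : IsPureInjective S Q) : Module.Injective S Q := by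
  refine ⟨fun X Y _ _ _ _ f hf g => ?_⟩
  obtain ⟨h', hh'⟩ := h X Y f (pure_of_injective hreg f hf) g
  exact ⟨h', fun x => by rw [← hh']; rfl⟩

/-- a minimal pair gives a minimal right ideal `g S` -/
theorem min_ideal (hreg : ∀ a : S, ∃ x : S, a * x * a = a) (φ ψ : PPFormula S)
    (h : IsMinimalPair φ ψ) :
    ∃ g : S, g * g = g ∧ g ≠ 0 ∧ (∀ s, g * s ≠ 0 → ∃ t, g = g * s * t) ∧
      ∀ (Q : Type u) [AddCommGroup Q] [Module S Q],
        (∀ v : Q, g • v = 0) ↔ φ.sol Q = ψ.sol Q := by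
  obtain ⟨hle, hnle, hmin⟩ := h
  obtain ⟨e, he, hφ⟩ := pp_idem hreg φ
  obtain ⟨f, hf, hψ⟩ := pp_idem hreg ψ
  have hef : e * f = f := by
    have h1 := hle S ((hψ S f).2 hf)
    exact (hφ S f).1 h1
  obtain ⟨f', hf'⟩ : ∃ f' : S, f' = f * e := ⟨_, rfl⟩
  have h1 : f' * f' = f' := by
    rw [hf']
    calc f * e * (f * e) = f * (e * f) * e := by noncomm_ring
      _ = f * e := by rw [hef, hf]
  have h2 : e * f' = f' := by rw [hf', ← mul_assoc, hef]
  have h3 : f' * e = f' := by rw [hf', mul_assoc, he]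
  have h4 : f * f' = f' := by rw [hf', ← mul_assoc, hf]
  have hψ' : ∀ (Q : Type u) [AddCommGroup Q] [Module S Q] (v : Q),
      v ∈ ψ.sol Q ↔ f' • v = v := by
    intro Q _ _ v
    rw [hψ]
    constructor
    · intro h5
      have h6 := (hφ Q v).1 (hle Q ((hψ Q v).2 h5))
      rw [hf', mul_smul, h6, h5]
    · intro h5
      rw [← h5, ← mul_smul, h4]
  obtain ⟨g, hg⟩ : ∃ g : S, g = e - f' := ⟨_, rfl⟩
  have h5 : g * g = g := by
    rw [hg, mul_sub, sub_mul, sub_mul, he, h1, h2, h3]; simp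
  have h6 : e * g = g := by rw [hg, mul_sub, he, h2]
  have h7 : g * f' = 0 := by rw [hg, sub_mul, h1, h2, sub_self]
  have h8 : f' * g = 0 := by rw [hg, mul_sub, h1, h3, sub_self]
  have h9 : g ≠ 0 := by
    intro h10
    apply hnle
    intro Q _ _ v hv
    rw [hφ] at hv
    rw [hψ']
    have : e = f' := by rw [hg] at h10; exact sub_eq_zero.mp h10
    rw [← this, hv]
  refine ⟨g, h5, h9, ?_, ?_⟩
  · intro s hs
    obtain ⟨x, hx⟩ := hreg (g * s)
    obtain ⟨h', hh'⟩ : ∃ h' : S, h' = g * s * x := ⟨_, rfl⟩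
    have k1 : h' * h' = h' := by
      rw [hh']
      calc g * s * x * (g * s * x) = g * s * x * (g * s) * x := by noncomm_ring
        _ = g * s * x := by rw [hx]
    have k2 : g * h' = h' := by
      rw [hh']
      calc g * (g * s * x) = g * g * s * x := by noncomm_ring
        _ = g * s * x := by rw [h5]
    have k3 : h' ≠ 0 := by
      intro h10
      apply hs
      rw [← hx, ← hh', h10, zero_mul]
    let θ : PPFormula S := ⟨2, 1, fun _ i => if i = 0 then f' else h', fun _ => 1⟩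
    have hθ : ∀ (Q : Type u) [AddCommGroup Q] [Module S Q] (v : Q),
        v ∈ θ.sol Q ↔ ∃ y z : Q, f' • y + h' • z = v := by
      intro Q _ _ v
      constructor
      · rintro ⟨z, hz⟩
        have h10 := hz 0
        refine ⟨z 0, z 1, ?_⟩
        simpa [θ, Fin.sum_univ_two] using h10
      · rintro ⟨y, z, hyz⟩
        refine ⟨![y, z], fun j => ?_⟩
        simpa [θ, Fin.sum_univ_two] using hyz
    have k4 : ψ.Le θ := by
      intro Q _ _ v hv
      exact (hθ Q v).2 ⟨v, 0, by rw [(hψ' Q v).1 hv, smul_zero, add_zero]⟩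
    have k5 : θ.Le φ := by
      intro Q _ _ v hv
      obtain ⟨y, z, hyz⟩ := (hθ Q v).1 hv
      rw [hφ, ← hyz, smul_add, ← mul_smul, ← mul_smul, h2]
      congr 2
      rw [← k2, ← mul_assoc, h6]
    rcases hmin θ k4 k5 with k6 | k6
    · exfalso
      have k7 : h' ∈ θ.sol S := (hθ S h').2 ⟨0, 1, by simp⟩
      have k8 := (hψ' S h').1 (k6 S k7)
      apply k3
      rw [← k8, smul_eq_mul, ← k2, ← mul_assoc, h8, zero_mul]
    · have k7 : g ∈ φ.sol S := (hφ S g).2 h6
      obtain ⟨y, z, hyz⟩ := (hθ S g).1 (k6 S k7)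
      refine ⟨x * z, ?_⟩
      have k8 : g * g = g * (f' * y + h' * z) := by
        congr 1
        exact hyz.symm
      rw [h5, mul_add, ← mul_assoc, h7, zero_mul, zero_add, ← mul_assoc, k2, hh'] at k8
      rw [← mul_assoc]
      exact k8
  · intro Q _ _
    constructor
    · intro hQ
      refine Set.Subset.antisymm ?_ (hle Q)
      intro v hv
      rw [hφ] at hv
      rw [hψ']
      have h10 := hQ v
      rw [hg, sub_smul, hv, sub_eq_zero] at h10
      exact h10.symm
    · intro hQ v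
      have h10 : g • v ∈ φ.sol Q := by rw [hφ, ← mul_smul, h6]
      rw [hQ, hψ', ← mul_smul, h8, zero_smul] at h10
      exact h10.symm

end Pool.Agent.Helper232.VN
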