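import Mathlib
import Pool.Agent.Helper462.Vnr.Op
import Pool.Agent.Helper462.Iso.Supp
import Pool.Agent.Helper462.Cb.TA
import Pool.Agent.Helper232.VN.L2
import Pool.Agent.Helper232.VN.Min

set_option autoImplicit false

namespace Pool.Agent.Helper232.VN

universe u v

open Zg ZIso

variable {A : Type u} [Ring A]

/-- the points killed by `I` -/
def XX (I : Set A) : Set (ZieglerSpectrum A) :=
  {x | ∃ N : IndecPureInjective A, zgPoint N = x ∧ ∀ a ∈ I, ∀ v : N.carrier, a • v = 0}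

/-- the points alive at `g` -/
def AL (g : A) : Set (ZieglerSpectrum A) :=
  {x | ∃ N : IndecPureInjective A, zgPoint N = x ∧ ∃ v : N.carrier, g • v ≠ 0}

theorem mem_XX (I : Set A) (N : IndecPureInjective A) :
    zgPoint N ∈ XX I ↔ ∀ a ∈ I, ∀ v : N.carrier, a • v = 0 := by
  constructor
  · rintro ⟨P, hP, h⟩ a ha v
    obtain ⟨i⟩ := Cb.zg_exact_aux hP
    have h1 := h a ha (i.symm v)
    have h2 := congrArg i h1
    rw [map_smul, i.apply_symm_apply, map_zero] at h2
    exact h2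
  · intro h
    exact ⟨N, rfl, h⟩

theorem mem_AL (g : A) (N : IndecPureInjective A) :
    zgPoint N ∈ AL g ↔ ∃ v : N.carrier, g • v ≠ 0 := by
  constructor
  · rintro ⟨P, hP, v, hv⟩
    obtain ⟨i⟩ := Cb.zg_exact_aux hP
    refine ⟨i v, ?_⟩
    rw [← map_smul]
    intro h
    exact hv (i.injective (by rw [h, map_zero]))
  · intro h
    exact ⟨N, rfl, h⟩

theorem isOpen_AL (g : A) : IsOpen (AL g) := by
  let φe : PPFormula A := ⟨1, 1, fun _ _ => g, fun _ => 1⟩
  let ψ0 : PPFormula A := ⟨0, 1, fun _ i => i.elim0, fun _ => 1⟩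
  have hφe : ∀ (Q : Type u) [AddCommGroup Q] [Module A Q] (v : Q),
      v ∈ φe.sol Q ↔ ∃ z : Q, g • z = v := by
    intro Q _ _ v
    constructor
    · rintro ⟨z, hz⟩
      refine ⟨z 0, ?_⟩
      simpa [φe] using hz 0
    · rintro ⟨z, hz⟩
      refine ⟨fun _ => z, fun j => ?_⟩
      simpa [φe] using hz
  have hψ0 : ∀ (Q : Type u) [AddCommGroup Q] [Module A Q] (v : Q),
      v ∈ ψ0.sol Q ↔ v = 0 := by
    intro Q _ _ v
    constructor
    · rintro ⟨z, hz⟩
      have := hz 0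
      simpa [ψ0] using this.symm
    · rintro rfl
      refine ⟨fun i => i.elim0, fun j => ?_⟩
      simp [ψ0]
  have hle : ψ0.Le φe := by
    intro Q _ _ v hv
    rw [hψ0] at hv
    rw [hφe, hv]
    exact ⟨0, smul_zero _⟩
  have halive : ∀ (Q : Type u) [AddCommGroup Q] [Module A Q],
      φe.sol Q ≠ ψ0.sol Q ↔ ∃ v : Q, g • v ≠ 0 := by
    intro Q _ _
    constructor
    · intro h
      by_contra hcon
      apply h
      refine Set.Subset.antisymm ?_ (hle Q)
      intro v hv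
      obtain ⟨z, hz⟩ := (hφe Q v).1 hv
      rw [hψ0, ← hz]
      by_contra h2
      exact hcon ⟨z, h2⟩
    · rintro ⟨v, hv⟩ heq
      have h1 : g • v ∈ φe.sol Q := (hφe Q _).2 ⟨v, rfl⟩
      rw [heq, hψ0] at h1
      exact hv h1
  have hset : AL g = basicSet φe ψ0 := by
    refine Set.ext fun x => ?_
    obtain ⟨N, rfl⟩ : ∃ N : IndecPureInjective A, zgPoint N = x := Quotient.exists_rep x
    rw [mem_AL, Cb.mem_basicSet_aux, halive]
  rw [hset]
  exact TopologicalSpace.isOpen_generateFrom_of_mem ⟨φe, ψ0, hle, rfl⟩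

theorem pair_idem (hreg : ∀ a : A, ∃ x : A, a * x * a = a) (φ ψ : PPFormula A) (hle : ψ.Le φ) :
    ∃ g : A, ∀ (Q : Type u) [AddCommGroup Q] [Module A Q],
      (∀ v : Q, g • v = 0) ↔ φ.sol Q = ψ.sol Q := by
  obtain ⟨e, he, hφ⟩ := pp_idem hreg φ
  obtain ⟨f, hf, hψ⟩ := pp_idem hreg ψ
  have hef : e * f = f := by
    have h1 := hle A ((hψ A f).2 hf)
    exact (hφ A f).1 h1
  refine ⟨e - f * e, fun Q _ _ => ?_⟩
  constructor
  · intro hQ
    refine Set.Subset.antisymm ?_ (hle Q)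
    intro v hv
    rw [hφ] at hv
    rw [hψ]
    have h10 := hQ v
    rw [sub_smul, mul_smul, hv, sub_eq_zero] at h10
    exact h10.symm
  · intro hQ v
    have h10 : e • v ∈ φ.sol Q := by rw [hφ, ← mul_smul, he]
    rw [hQ, hψ] at h10
    rw [sub_smul, mul_smul, h10, sub_self]

/-- the basic neighbourhoods -/
theorem open_nhds (hreg : ∀ a : A, ∃ x : A, a * x * a = a) (N : IndecPureInjective A)
    (U : Set (ZieglerSpectrum A)) (hU : IsOpen U) (hN : zgPoint N ∈ U) :
    ∃ c : A, c * c = c ∧ (∃ v : N.carrier, c • v ≠ 0) ∧ AL c ⊆ U := by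
  classical
  obtain ⟨V, ⟨f, ⟨hf, hfS⟩, rfl⟩, hNV, hV⟩ :=
    (TopologicalSpace.isTopologicalBasis_of_subbasis
      (α := ZieglerSpectrum A) rfl).exists_subset_of_mem_open hN hU
  have hfe : ∀ S ∈ f, ∃ g : A, S = AL g := by
    intro S hS
    obtain ⟨φ, ψ, hle, rfl⟩ := hfS hS
    obtain ⟨g, hg⟩ := pair_idem hreg φ ψ hle
    refine ⟨g, Set.ext fun x => ?_⟩
    obtain ⟨P, rfl⟩ : ∃ P : IndecPureInjective A, zgPoint P = x := Quotient.exists_rep x
    rw [mem_AL, Cb.mem_basicSet_aux, ne_eq, ← hg P.carrier]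
    push Not
    rfl
  choose! E hE using hfe
  let F : Finset A := hf.toFinset.image E
  have hinj := injective_of_pureInjective hreg N.carrier N.pureInjective
  have hunif := VNR.uniform_of_indec_injective A N.carrier hinj N.indecomposable
  obtain ⟨c, hc, hx, hcT⟩ := VNR.exists_common_idempotent A hreg N.carrier
    N.indecomposable.1 hunif F (by
      intro e he
      obtain ⟨S, hS, rfl⟩ := Finset.mem_image.1 he
      rw [Set.Finite.mem_toFinset] at hS
      have h1 : zgPoint N ∈ S := hNV S hS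
      rw [hE S hS, mem_AL] at h1
      exact h1)
  refine ⟨c, hc, hx, fun x hxc => hV ?_⟩
  obtain ⟨P, rfl⟩ : ∃ P : IndecPureInjective A, zgPoint P = x := Quotient.exists_rep x
  intro S hS
  rw [hE S hS, mem_AL]
  obtain ⟨t, ht⟩ := (mem_AL c P).1 hxc
  exact hcT P.carrier t ht (E S)
    (Finset.mem_image.2 ⟨S, (Set.Finite.mem_toFinset hf).2 hS, rfl⟩)

end Pool.Agent.Helper232.VN
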