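import Mathlib
import Pool.Agent.Helper232.VN.L3

set_option autoImplicit false

namespace Pool.Agent.Helper232.VN

universe u v

open Zg ZIso

variable {A : Type u} [Ring A]

/-- a two-sided ideal as a left ideal -/
def Two.toIdeal {I : Set A} (h : Two I) : Ideal A where
  carrier := I
  zero_mem' := h.zero
  add_mem' := fun {a b} ha hb => h.add a ha b hb
  smul_mem' := fun r a ha => h.left r a ha

theorem Two.mem_toIdeal {I : Set A} (h : Two I) (a : A) : a ∈ h.toIdeal ↔ a ∈ I := Iff.rfl

instance Two.isTwoSided {I : Set A} (h : Two I) : h.toIdeal.IsTwoSided :=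
  ⟨fun {a} b ha => h.right b a ha⟩

/-- the hull of a simple module as a point of the Ziegler spectrum -/
def toPoint (N : VNR.IndecInjective A) : IndecPureInjective A :=
  ⟨N.carrier, pureInjective_of_injective N.carrier N.injective, N.indecomposable⟩

theorem iso_of_eq {N N' : IndecPureInjective A} (h : zgPoint N = zgPoint N') :
    Nonempty (N.carrier ≃ₗ[A] N'.carrier) := Cb.zg_exact_aux h

/-- the maximal left ideal of a minimal element -/
def mOf {I : Set A} (hI : Two I) (g : A) : Ideal A where
  carrier := {a | a * g ∈ I}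
  zero_mem' := by
    show (0 : A) * g ∈ I
    rw [zero_mul]; exact hI.zero
  add_mem' := fun {a b} ha hb => by
    show (a + b) * g ∈ I
    rw [add_mul]; exact hI.add _ ha _ hb
  smul_mem' := fun r a ha => by
    show r * a * g ∈ I
    rw [mul_assoc]; exact hI.left r _ ha

theorem mOf_max {I : Set A} (hI : Two I) {g : A} (hg : LMin I g) : (mOf hI g).IsMaximal := by
  rw [Ideal.isMaximal_iff]
  refine ⟨fun h => hg.1 ?_, fun J x hJ hx hxJ => ?_⟩
  · have h1 : (1 : A) * g ∈ I := h
    rwa [one_mul] at h1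
  · obtain ⟨t, ht⟩ := hg.2 x hx
    have h1 : t * x - 1 ∈ mOf hI g := by
      show (t * x - 1) * g ∈ I
      rw [sub_mul, one_mul, mul_assoc]
      exact ht
    have h2 : t * x ∈ J := J.mul_mem_left t hxJ
    have h3 := J.sub_mem h2 (hJ h1)
    rwa [sub_sub_cancel] at h3

theorem socle_free {I : Set A} (hreg : ∀ a : A, ∃ x : A, a * x * a = a) (hI : Two I) (c : A)
    (hc : c * c = c) (hB : ∀ g, LMin I g → ∀ s, c * s * g ∈ I)
    (J : Ideal A) (hJ : ∀ a, a ∈ J ↔ ∀ r, a * r * c ∈ I)
    (S : Submodule A (A ⧸ J)) : ¬ IsSimpleModule A S := by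
  intro hS
  have := hS.nontrivial
  obtain ⟨s, hs⟩ := exists_ne (0 : S)
  obtain ⟨g, hgs⟩ := Submodule.Quotient.mk_surjective _ (s : A ⧸ J)
  have hgJ : g ∉ J := by
    intro h
    apply hs
    apply Subtype.ext
    rw [← hgs]
    exact (Submodule.Quotient.mk_eq_zero _).2 h
  rw [hJ] at hgJ
  push Not at hgJ
  obtain ⟨r, hr⟩ := hgJ
  have hmin : LMin I (g * r * c) := by
    refine ⟨hr, fun a ha => ?_⟩
    have h1 : a * g ∉ J := by
      intro h
      apply ha
      have := (hJ _).1 h r
      convert this using 1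
      noncomm_ring
    have h2 : a • s ≠ 0 := by
      intro h
      apply h1
      have h3 := congrArg Subtype.val h
      rw [Submodule.coe_smul, ← hgs, ← Submodule.Quotient.mk_smul] at h3
      exact (Submodule.Quotient.mk_eq_zero _).1 h3
    have h3 : Submodule.span A {a • s} = ⊤ := by
      rcases eq_bot_or_eq_top (Submodule.span A {a • s}) with h | h
      · exact absurd (Submodule.span_singleton_eq_bot.1 h) h2
      · exact h
    have h4 : s ∈ Submodule.span A {a • s} := by rw [h3]; trivial
    obtain ⟨t, ht⟩ := Submodule.mem_span_singleton.1 h4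
    refine ⟨t, ?_⟩
    have h5 : t * (a * g) - g ∈ J := by
      have h6 := congrArg Subtype.val ht
      rw [Submodule.coe_smul, Submodule.coe_smul, ← hgs, ← Submodule.Quotient.mk_smul,
        ← Submodule.Quotient.mk_smul] at h6
      exact (Submodule.Quotient.eq J).1 h6
    have h7 := (hJ _).1 h5 r
    convert h7 using 1
    noncomm_ring
  obtain ⟨x, hx⟩ := hreg (g * r * c)
  have h8 := hB _ hmin x
  apply hr
  have h9 := hI.left (g * r * c) _ h8
  have h10 : g * r * c * (c * x * (g * r * c)) = g * r * c := by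
    calc g * r * c * (c * x * (g * r * c)) = g * r * (c * c) * x * (g * r * c) := by noncomm_ring
      _ = g * r * c := by rw [hc, hx]
  rwa [h10] at h9

theorem derive_XX (hreg : ∀ a : A, ∃ x : A, a * x * a = a) (G : Set A)
    (hG : Cardinal.mk G < Cardinal.continuum)
    (hspan : Submodule.span (Subring.center A) G = ⊤) (I : Set A) (hI : Two I) :
    Cb.derive (XX I) = XX (Dv I) := by
  refine Set.Subset.antisymm ?_ ?_
  · rintro x ⟨hx, hlim⟩
    obtain ⟨N, rfl⟩ : ∃ N : IndecPureInjective A, zgPoint N = x := Quotient.exists_rep x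
    have hNI := (mem_XX I N).1 hx
    have hinj := injective_of_pureInjective hreg N.carrier N.pureInjective
    have hmin : ∀ g, LMin I g → ∀ v : N.carrier, g • v = 0 := by
      intro g hg v
      by_contra hv
      obtain ⟨y, hyU, hyI, hne⟩ := hlim (AL g) (isOpen_AL g) ((mem_AL g N).2 ⟨v, hv⟩)
      obtain ⟨P, rfl⟩ : ∃ P : IndecPureInjective A, zgPoint P = y := Quotient.exists_rep y
      obtain ⟨v', hv'⟩ := (mem_AL g P).1 hyU
      have hPI := (mem_XX I P).1 hyI
      obtain ⟨i⟩ := iso_of_alive I g hg P.carrier N.carrier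
        (injective_of_pureInjective hreg P.carrier P.pureInjective) P.indecomposable hinj
        N.indecomposable hPI hNI v' hv' v hv
      exact hne (Quotient.sound ⟨i⟩)
    rw [mem_XX]
    intro a ha
    exact ha {a | ∀ v : N.carrier, a • v = 0}
      { zero := fun v => zero_smul _ v
        add := fun a ha b hb v => by rw [add_smul, ha v, hb v, add_zero]
        left := fun r a ha v => by rw [mul_smul, ha v, smul_zero]
        right := fun r a ha v => by rw [mul_smul]; exact ha _ }
      hNI hmin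
  · intro x hx
    obtain ⟨N, rfl⟩ : ∃ N : IndecPureInjective A, zgPoint N = x := Quotient.exists_rep x
    have hND := (mem_XX (Dv I) N).1 hx
    have hNI : ∀ a ∈ I, ∀ v : N.carrier, a • v = 0 := fun a ha => hND a (Dv_le I ha)
    refine ⟨(mem_XX I N).2 hNI, fun U hU hNU => ?_⟩
    obtain ⟨c, hc, ⟨v0, hv0⟩, hcU⟩ := open_nhds hreg N U hU hNU
    have hcI : c ∉ I := fun h => hv0 (hNI c h v0)
    by_cases hA : ∃ g, LMin I g ∧ ∃ s, c * s * g ∉ I
    · obtain ⟨g, hg, s, hs⟩ := hA
      have hm := mOf_max hI hg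
      have hIm : hI.toIdeal ≤ mOf hI g := fun a ha => hI.right g a ha
      obtain ⟨N', f, hf, -, hN'⟩ := VNR.exists_hull A hreg hI.toIdeal (mOf hI g) hm hIm
      have halive : ∀ a b : A, a * b * g ∉ I → a • f (Submodule.Quotient.mk b) ≠ 0 := by
        intro a b hab h
        rw [← map_smul, ← Submodule.Quotient.mk_smul] at h
        have h1 := hf (h.trans (map_zero f).symm)
        rw [Submodule.Quotient.mk_eq_zero] at h1
        exact hab h1
      refine ⟨zgPoint (toPoint N'), hcU ((mem_AL c _).2 ⟨_, halive c s hs⟩),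
        (mem_XX I _).2 fun a ha v => hN' a ha v, ?_⟩
      intro heq
      obtain ⟨i⟩ := iso_of_eq heq
      obtain ⟨x, hx⟩ := hreg g
      have h1 : g • f (Submodule.Quotient.mk x) ≠ 0 := halive g x (by rw [hx]; exact hg.1)
      apply h1
      let j : N'.carrier ≃ₗ[A] N.carrier := i
      have h2 := hND g (Dv_min I hg) (j (f (Submodule.Quotient.mk x)))
      rw [← map_smul] at h2
      exact j.injective (h2.trans (map_zero j).symm)
    · push Not at hA
      have hJ2 : Two {a : A | ∀ r, a * r * c ∈ I} :=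
        { zero := fun r => by rw [zero_mul, zero_mul]; exact hI.zero
          add := fun a ha b hb r => by rw [add_mul, add_mul]; exact hI.add _ (ha r) _ (hb r)
          left := fun s a ha r => by
            rw [mul_assoc s, mul_assoc s]; exact hI.left s _ (ha r)
          right := fun s a ha r => by
            rw [mul_assoc a]; exact ha _ }
      have hIJ : ∀ a ∈ I, a ∈ hJ2.toIdeal := fun a ha r => hI.right c _ (hI.right r a ha)
      have hcJ : c ∉ hJ2.toIdeal := by
        intro h
        have h1 : c * 1 * c ∈ I := h 1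
        rw [mul_one, hc] at h1
        exact hcI h1
      obtain ⟨m₁, m₂, hm₁, hm₂, hJ₁, hJ₂, he₁, he₂, hne⟩ :=
        VNR.exists_two_simple A hreg G hG hspan hJ2.toIdeal
          (socle_free hreg hI c hc hA hJ2.toIdeal (fun a => Iff.rfl)) c hc hcJ
      obtain ⟨N₁, f₁, hf₁, hK₁, hN₁⟩ := VNR.exists_hull A hreg hJ2.toIdeal m₁ hm₁ hJ₁
      obtain ⟨N₂, f₂, hf₂, hK₂, hN₂⟩ := VNR.exists_hull A hreg hJ2.toIdeal m₂ hm₂ hJ₂
      have hin : ∀ (m : Ideal A) (hm : m.IsMaximal) (P : VNR.IndecInjective A)
          (f : (A ⧸ m) →ₗ[A] P.carrier), Function.Injective f →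
          c • (Submodule.Quotient.mk (1 : A) : A ⧸ m) = Submodule.Quotient.mk (1 : A) →
          (∀ a ∈ hJ2.toIdeal, ∀ v : P.carrier, a • v = 0) →
          zgPoint (toPoint P) ∈ U ∧ zgPoint (toPoint P) ∈ XX I := by
        intro m hm P f hf hcm hP
        constructor
        · apply hcU
          refine (mem_AL c _).2 ⟨f (Submodule.Quotient.mk 1), ?_⟩
          change c • f (Submodule.Quotient.mk 1) ≠ 0
          rw [← map_smul, hcm]
          intro h
          exact VNR.mk_one_ne m hm (hf (by rw [h, map_zero]))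
        · exact (mem_XX I _).2 fun a ha v => hP a (hIJ a ha) v
      obtain ⟨h1U, h1I⟩ := hin m₁ hm₁ N₁ f₁ hf₁ he₁ hN₁
      obtain ⟨h2U, h2I⟩ := hin m₂ hm₂ N₂ f₂ hf₂ he₂ hN₂
      by_cases h1 : zgPoint (toPoint N₁) = zgPoint N
      · refine ⟨_, h2U, h2I, fun h2 => ?_⟩
        obtain ⟨i⟩ := iso_of_eq (h1.trans h2.symm)
        have := (VNR.simple_quotient m₁ hm₁).nontrivial
        have := (VNR.simple_quotient m₂ hm₂).nontrivial
        exact hne (VNR.socle_iso f₁ hf₁ hK₁ f₂ hf₂ hK₂ i)
      · exact ⟨_, h1U, h1I, h1⟩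

theorem XX_empty (hreg : ∀ a : A, ∃ x : A, a * x * a = a) (I : Set A) (hI : Two I) :
    XX I = ∅ ↔ (1 : A) ∈ I := by
  constructor
  · intro h
    by_contra h1
    have h2 : hI.toIdeal ≠ ⊤ := by
      intro h3
      apply h1
      have : (1 : A) ∈ hI.toIdeal := by rw [h3]; trivial
      exact this
    obtain ⟨m, hm, hJm⟩ := Ideal.exists_le_maximal hI.toIdeal h2
    obtain ⟨N, f, -, -, hN⟩ := VNR.exists_hull A hreg hI.toIdeal m hm hJm
    have h3 : zgPoint (toPoint N) ∈ XX I := (mem_XX I _).2 fun a ha v => hN a ha v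
    rw [h] at h3
    exact h3
  · intro h
    rw [Set.eq_empty_iff_forall_notMem]
    intro x hx
    obtain ⟨N, rfl⟩ : ∃ N : IndecPureInjective A, zgPoint N = x := Quotient.exists_rep x
    obtain ⟨v, hv⟩ := @exists_ne N.carrier N.indecomposable.1 0
    have := (mem_XX I N).1 hx 1 h v
    rw [one_smul] at this
    exact hv this

end Pool.Agent.Helper232.VN
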