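import Mathlib
import Pool.Agent.Helper232.VN.L4

set_option autoImplicit false

namespace Pool.Agent.Helper232.VN

universe u v

open Zg ZIso

/-- the same set in the opposite ring -/
def opS {R : Type u} (I : Set R) : Set Rᵐᵒᵖ := {a | a.unop ∈ I}

theorem Two.op {R : Type u} [Ring R] {I : Set R} (h : Two I) : Two (opS I) where
  zero := h.zero
  add := fun _ ha _ hb => h.add _ ha _ hb
  left := fun _ _ ha => h.right _ _ ha
  right := fun _ _ ha => h.left _ _ ha

theorem Two.unop {R : Type u} [Ring R] {I : Set Rᵐᵒᵖ} (h : Two I) :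
    Two {a : R | MulOpposite.op a ∈ I} where
  zero := h.zero
  add := fun _ ha _ hb => h.add _ ha _ hb
  left := fun r _ ha => h.right (MulOpposite.op r) _ ha
  right := fun r _ ha => h.left (MulOpposite.op r) _ ha

theorem lmin_op {R : Type u} [Ring R] (I : Set R) (g : R) :
    LMin (opS I) (MulOpposite.op g) ↔ RMin I g := by
  constructor
  · rintro ⟨h1, h2⟩
    refine ⟨h1, fun s hs => ?_⟩
    obtain ⟨t, ht⟩ := h2 (MulOpposite.op s) hs
    exact ⟨t.unop, ht⟩
  · rintro ⟨h1, h2⟩
    refine ⟨h1, fun s hs => ?_⟩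
    obtain ⟨t, ht⟩ := h2 s.unop hs
    exact ⟨MulOpposite.op t, ht⟩

theorem Dv_op {R : Type u} [Ring R] (hreg : ∀ a : R, ∃ x, a * x * a = a) {I : Set R}
    (hI : Two I) : Dv (opS I) = opS (Dv I) := by
  rw [Dv_symm hreg hI]
  refine Set.ext fun a => ?_
  constructor
  · intro h J hJ h1 h2
    have h3 := h (opS J) hJ.op (fun b hb => h1 hb) (fun g hg => by
      have h4 : LMin (opS I) (MulOpposite.op g.unop) := hg
      exact h2 g.unop ((lmin_op I g.unop).1 h4))
    exact h3
  · intro h J hJ h1 h2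
    have h3 := h {a : R | MulOpposite.op a ∈ J} hJ.unop
      (fun b hb => h1 (show MulOpposite.op b ∈ opS I from hb))
      (fun g hg => h2 _ ((lmin_op I g).2 hg))
    exact h3

/-- the two-sided ideal generated by a family -/
def Gen {R : Type u} [Ring R] {ι : Type v} (I : ι → Set R) : Set R :=
  {a | ∀ J : Set R, Two J → (∀ i, I i ⊆ J) → a ∈ J}

theorem Gen_two {R : Type u} [Ring R] {ι : Type v} (I : ι → Set R) : Two (Gen I) where
  zero := fun _ hJ _ => hJ.zero
  add := fun _ ha _ hb J hJ h1 => hJ.add _ (ha J hJ h1) _ (hb J hJ h1)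
  left := fun r _ ha J hJ h1 => hJ.left r _ (ha J hJ h1)
  right := fun r _ ha J hJ h1 => hJ.right r _ (ha J hJ h1)

theorem Gen_op {R : Type u} [Ring R] {ι : Type v} (I : ι → Set R) :
    Gen (fun i => opS (I i)) = opS (Gen I) := by
  refine Set.ext fun a => ?_
  constructor
  · intro h J hJ h1
    exact h (opS J) hJ.op (fun i b hb => h1 i hb)
  · intro h J hJ h1
    exact h {a : R | MulOpposite.op a ∈ J} hJ.unop
      (fun i b hb => h1 i (show MulOpposite.op b ∈ opS (I i) from hb))

theorem ann_two {A : Type u} [Ring A] (N : Type u) [AddCommGroup N] [Module A N] :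
    Two {a : A | ∀ v : N, a • v = 0} where
  zero := fun v => zero_smul _ v
  add := fun a ha b hb v => by rw [add_smul, ha v, hb v, add_zero]
  left := fun r a ha v => by rw [mul_smul, ha v, smul_zero]
  right := fun r a ha v => by rw [mul_smul]; exact ha _

theorem XX_Gen {A : Type u} [Ring A] {ι : Type v} (I : ι → Set A) :
    XX (Gen I) = {x | ∀ i, x ∈ XX (I i)} := by
  refine Set.ext fun x => ?_
  obtain ⟨N, rfl⟩ : ∃ N : IndecPureInjective A, zgPoint N = x := Quotient.exists_rep x
  rw [mem_XX, Set.mem_ofPred_eq]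
  constructor
  · intro h i
    rw [mem_XX]
    intro a ha
    exact h a fun J _ h1 => h1 i ha
  · intro h a ha
    refine ha {a : A | ∀ v : N.carrier, a • v = 0} (ann_two N.carrier) fun i b hb => ?_
    exact (mem_XX _ _).1 (h i) b hb

theorem both (R : Type u) [Ring R] (hreg : ∀ a : R, ∃ x, a * x * a = a) (G : Set R)
    (hG : Cardinal.mk G < Cardinal.continuum)
    (hspan : Submodule.span (Subring.center R) G = ⊤) (α : Ordinal.{v}) :
    ∃ I : Set R, Two I ∧ Cb.cb (ZieglerSpectrum R) α = XX I ∧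
      Cb.cb (ZieglerSpectrum Rᵐᵒᵖ) α = XX (opS I) := by
  have hreg' := VNR.reg_op hreg
  have hspan' := VNR.span_op G hspan
  have hG' : Cardinal.mk (MulOpposite.op '' G) < Cardinal.continuum :=
    lt_of_le_of_lt Cardinal.mk_image_le hG
  induction α using Ordinal.limitRecOn with
  | zero =>
    refine ⟨{0}, ⟨rfl, ?_, ?_, ?_⟩, ?_, ?_⟩
    · rintro a rfl b rfl; exact add_zero _
    · rintro r a rfl; exact mul_zero _
    · rintro r a rfl; exact zero_mul _
    · rw [Cb.cb_zero]
      refine (Set.eq_univ_of_forall fun x => ?_).symm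
      obtain ⟨N, rfl⟩ : ∃ N : IndecPureInjective R, zgPoint N = x := Quotient.exists_rep x
      rw [mem_XX]
      rintro a rfl v
      exact zero_smul _ _
    · rw [Cb.cb_zero]
      refine (Set.eq_univ_of_forall fun x => ?_).symm
      obtain ⟨N, rfl⟩ : ∃ N : IndecPureInjective Rᵐᵒᵖ, zgPoint N = x := Quotient.exists_rep x
      rw [mem_XX]
      intro a ha v
      have h1 : a = 0 := MulOpposite.unop_injective ha
      rw [h1, zero_smul]
  | add_one α ih =>
    obtain ⟨I, hI, h1, h2⟩ := ih
    refine ⟨Dv I, Dv_two I, ?_, ?_⟩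
    · rw [← Order.succ_eq_add_one, Cb.cb_succ, h1, derive_XX hreg G hG hspan I hI]
    · rw [← Order.succ_eq_add_one, Cb.cb_succ, h2,
        derive_XX hreg' _ hG' hspan' (opS I) hI.op, Dv_op hreg hI]
  | limit α hα ih =>
    choose I hI h1 h2 using ih
    refine ⟨Gen (fun β : Set.Iio α => I β.1 β.2), Gen_two _, ?_, ?_⟩
    · rw [Cb.cb_limit _ _ hα, XX_Gen]
      refine Set.ext fun x => ?_
      constructor
      · intro h β
        rw [← h1 β.1 β.2]
        exact Set.mem_iInter.1 h β
      · intro h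
        refine Set.mem_iInter.2 fun β => ?_
        rw [h1 β.1 β.2]
        exact h β
    · rw [Cb.cb_limit _ _ hα, ← Gen_op, XX_Gen]
      refine Set.ext fun x => ?_
      constructor
      · intro h β
        rw [← h2 β.1 β.2]
        exact Set.mem_iInter.1 h β
      · intro h
        refine Set.mem_iInter.2 fun β => ?_
        rw [h2 β.1 β.2]
        exact h β

theorem empty_iff (R : Type u) [Ring R] (hreg : ∀ a : R, ∃ x, a * x * a = a) (G : Set R)
    (hG : Cardinal.mk G < Cardinal.continuum)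
    (hspan : Submodule.span (Subring.center R) G = ⊤) (α : Ordinal.{v}) :
    Cb.cb (ZieglerSpectrum R) α = ∅ ↔ Cb.cb (ZieglerSpectrum Rᵐᵒᵖ) α = ∅ := by
  obtain ⟨I, hI, h1, h2⟩ := both R hreg G hG hspan α
  rw [h1, h2, XX_empty hreg I hI, XX_empty (VNR.reg_op hreg) (opS I) hI.op]
  exact Iff.rfl

end Pool.Agent.Helper232.VN
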