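import Mathlib
import Pool.Agent.Helper232.VN.L5

set_option autoImplicit false

namespace Pool.Agent.Helper232.VN

universe u v

open Zg ZIso

variable {A : Type u} [Ring A]

/-- `φ ≤ ψ` in the lattice `pp(Y)`: `φ(N) ⊆ ψ(N)` for all `N` in `Y` -/
def YLe (Y : Set (ZieglerSpectrum A)) (φ ψ : PPFormula A) : Prop :=
  ∀ N : IndecPureInjective A, zgPoint N ∈ Y → φ.sol N.carrier ⊆ ψ.sol N.carrier

/-- `φ/ψ` is a `Y`-minimal pair: the interval between `ψ` and `φ` in `pp(Y)` has exactly two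
elements -/
def YMinimal (Y : Set (ZieglerSpectrum A)) (φ ψ : PPFormula A) : Prop :=
  ψ.Le φ ∧ ¬ YLe Y φ ψ ∧ ∀ θ : PPFormula A, YLe Y ψ θ → YLe Y θ φ → YLe Y θ ψ ∨ YLe Y φ θ

/-- the isolation condition for `X`: for every closed `Y ⊆ X` every point which is isolated in `Y`
is isolated in `Y` by a `Y`-minimal pair -/
def Isolation (X : Set (ZieglerSpectrum A)) : Prop :=
  ∀ Y : Set (ZieglerSpectrum A), Y ⊆ X → IsClosed Y → ∀ x ∈ Y,
    (∃ U : Set (ZieglerSpectrum A), IsOpen U ∧ U ∩ Y = {x}) →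
    ∃ φ ψ : PPFormula A, YMinimal Y φ ψ ∧ basicSet φ ψ ∩ Y = {x}

theorem closed_eq (hreg : ∀ a : A, ∃ x : A, a * x * a = a) (Y : Set (ZieglerSpectrum A))
    (hY : IsClosed Y) :
    ∃ I : Set A, Two I ∧ Y = XX I ∧ ∀ a : A, (∀ N : IndecPureInjective A, zgPoint N ∈ Y →
      ∀ v : N.carrier, a • v = 0) → a ∈ I := by
  refine ⟨{a | ∀ N : IndecPureInjective A, zgPoint N ∈ Y → ∀ v : N.carrier, a • v = 0},
    ⟨?_, ?_, ?_, ?_⟩, ?_, fun a ha => ha⟩
  · intro N _ v; exact zero_smul _ v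
  · intro a ha b hb N hN v
    rw [add_smul, ha N hN, hb N hN, add_zero]
  · intro r a ha N hN v
    rw [mul_smul, ha N hN, smul_zero]
  · intro r a ha N hN v
    rw [mul_smul]; exact ha N hN _
  · refine Set.Subset.antisymm ?_ ?_
    · intro x hx
      obtain ⟨N, rfl⟩ : ∃ N : IndecPureInjective A, zgPoint N = x := Quotient.exists_rep x
      rw [mem_XX]
      intro a ha v
      exact ha N hx v
    · intro x hx
      obtain ⟨N, rfl⟩ : ∃ N : IndecPureInjective A, zgPoint N = x := Quotient.exists_rep x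
      by_contra hcon
      obtain ⟨c, -, ⟨v, hv⟩, hc⟩ := open_nhds hreg N Yᶜ hY.isOpen_compl hcon
      apply hv
      refine (mem_XX _ N).1 hx c ?_ v
      intro P hP w
      by_contra hw
      exact hc ((mem_AL c P).2 ⟨w, hw⟩) hP

theorem isolation_all (hreg : ∀ a : A, ∃ x : A, a * x * a = a) (G : Set A)
    (hG : Cardinal.mk G < Cardinal.continuum)
    (hspan : Submodule.span (Subring.center A) G = ⊤) (X : Set (ZieglerSpectrum A)) :
    Isolation X := by
  intro Y _ hY x hxY ⟨U, hU, hUY⟩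
  obtain ⟨N, rfl⟩ : ∃ N : IndecPureInjective A, zgPoint N = x := Quotient.exists_rep x
  obtain ⟨I, hI, hYI, hmax⟩ := closed_eq hreg Y hY
  have hNI := (mem_XX I N).1 (hYI ▸ hxY)
  have hxU : zgPoint N ∈ U := by
    have : zgPoint N ∈ U ∩ Y := by rw [hUY]; rfl
    exact this.1
  have hder : zgPoint N ∉ Cb.derive Y := by
    rintro ⟨-, h⟩
    obtain ⟨y, hy1, hy2, hy3⟩ := h U hU hxU
    apply hy3
    have : y ∈ U ∩ Y := ⟨hy1, hy2⟩
    rwa [hUY] at this
  rw [hYI, derive_XX hreg G hG hspan I hI, mem_XX] at hder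
  obtain ⟨g, hg, v, hv⟩ : ∃ g, LMin I g ∧ ∃ v : N.carrier, g • v ≠ 0 := by
    by_contra hcon
    push Not at hcon
    apply hder
    intro a ha
    exact ha {a | ∀ v : N.carrier, a • v = 0} (ann_two N.carrier) hNI hcon
  obtain ⟨e, -, hee, -, hge, heL, heR⟩ := lmin_to hreg hI hg
  have hev : e • v ≠ 0 := by
    intro h
    apply hv
    rw [← hge, mul_smul, h, smul_zero]
  let φe : PPFormula A := ⟨1, 1, fun _ _ => e, fun _ => 1⟩
  let ψ0 : PPFormula A := ⟨0, 1, fun _ i => i.elim0, fun _ => 1⟩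
  have hφe : ∀ (Q : Type u) [AddCommGroup Q] [Module A Q] (v : Q),
      v ∈ φe.sol Q ↔ e • v = v := by
    intro Q _ _ v
    constructor
    · rintro ⟨z, hz⟩
      have h1 : e • z 0 = v := by simpa [φe] using hz 0
      rw [← h1, ← mul_smul, hee]
    · intro hz
      refine ⟨fun _ => v, fun j => ?_⟩
      simpa [φe] using hz
  have hψ0 : ∀ (Q : Type u) [AddCommGroup Q] [Module A Q] (v : Q),
      v ∈ ψ0.sol Q ↔ v = 0 := by
    intro Q _ _ v
    constructor
    · rintro ⟨z, hz⟩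
      have := hz 0
      simpa [ψ0] using this.symm
    · rintro rfl
      refine ⟨fun i => i.elim0, fun j => ?_⟩
      simp [ψ0]
  have hle : ψ0.Le φe := by
    intro Q _ _ v hv
    rw [hψ0] at hv
    rw [hφe, hv, smul_zero]
  have halive : ∀ (Q : Type u) [AddCommGroup Q] [Module A Q],
      φe.sol Q ≠ ψ0.sol Q ↔ ∃ v : Q, e • v ≠ 0 := by
    intro Q _ _
    constructor
    · intro h
      by_contra hcon
      push Not at hcon
      apply h
      refine Set.Subset.antisymm ?_ (hle Q)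
      intro v hv
      rw [hψ0, ← (hφe Q v).1 hv]
      exact hcon v
    · rintro ⟨v, hv⟩ heq
      have h1 : e • v ∈ φe.sol Q := by rw [hφe, ← mul_smul, hee]
      rw [heq, hψ0] at h1
      exact hv h1
  refine ⟨φe, ψ0, ⟨hle, ?_, ?_⟩, ?_⟩
  · intro h
    have h1 : e • v ∈ φe.sol N.carrier := by rw [hφe, ← mul_smul, hee]
    have h2 := h N hxY h1
    rw [hψ0] at h2
    exact hev h2
  · intro θ _ hθφ
    obtain ⟨f, hf, hθ⟩ := pp_idem hreg θ
    by_cases hfI : f ∈ I
    · left
      intro P hP w hw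
      rw [hψ0, ← (hθ P.carrier w).1 hw]
      exact (mem_XX I P).1 (hYI ▸ hP) f hfI w
    · right
      have h1 : e * f - f ∈ I := by
        apply hmax
        intro P hP w
        have h2 : f • w ∈ θ.sol P.carrier := by rw [hθ, ← mul_smul, hf]
        have h3 := (hφe P.carrier _).1 (hθφ P hP h2)
        rw [sub_smul, mul_smul, h3, sub_self]
      have h2 : e * f ∉ I := fun h => hfI (hI.of_sub h1 h)
      obtain ⟨t, ht⟩ := heR.2 f h2
      intro P hP w hw
      have hPI := (mem_XX I P).1 (hYI ▸ hP)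
      have h3 := (hφe P.carrier w).1 hw
      have h4 := hPI _ ht w
      rw [sub_smul, h3, sub_eq_zero, mul_smul] at h4
      have h5 := hPI _ h1 (t • w)
      rw [sub_smul, sub_eq_zero, h4] at h5
      rw [hθ]
      conv_lhs => rw [h5]
      rw [← mul_smul, hf]
      exact h5.symm
  · refine Set.Subset.antisymm ?_ ?_
    · rintro y ⟨hy1, hy2⟩
      obtain ⟨P, rfl⟩ : ∃ P : IndecPureInjective A, zgPoint P = y := Quotient.exists_rep y
      rw [Cb.mem_basicSet_aux, halive] at hy1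
      obtain ⟨w, hw⟩ := hy1
      obtain ⟨i⟩ := iso_of_alive I e heL P.carrier N.carrier
        (injective_of_pureInjective hreg P.carrier P.pureInjective) P.indecomposable
        (injective_of_pureInjective hreg N.carrier N.pureInjective) N.indecomposable
        ((mem_XX I P).1 (hYI ▸ hy2)) hNI w hw v hev
      exact Quotient.sound ⟨i⟩
    · rintro y rfl
      exact ⟨(Cb.mem_basicSet_aux N φe ψ0).2 ((halive N.carrier).2 ⟨v, hev⟩), hxY⟩

end Pool.Agent.Helper232.VN
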